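import Pool.Agent.Helper53.Comp.GoalsP
import Pool.Agent.Helper91.Mono.Idx

/-!
# The index of a lifted cone (packet P6)
-/

namespace Mono

namespace Comp

namespace P6

open Finset

/-- The restriction to the coordinates `c i`, `i ∈ S`. -/
def res {m k : ℕ} (S : Finset (Fin k)) (c : Fin k → Fin m) : (Fin m → ℤ) →+ (S → ℤ) where
  toFun x := fun i => x (c i)
  map_zero' := rfl
  map_add' _ _ := rfl

theorem res_apply {m k : ℕ} (S : Finset (Fin k)) (c : Fin k → Fin m) (x : Fin m → ℤ) (i : S) :
    res S c x i = x (c i) := rfl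

/-- Multiplication by `N` in each coordinate. -/
def mulN {S : Type} (N : S → ℤ) : (S → ℤ) →+ (S → ℤ) where
  toFun x := fun i => N i * x i
  map_zero' := by funext i; simp
  map_add' x y := by funext i; simp [mul_add]

theorem mulN_apply {S : Type} (N : S → ℤ) (x : S → ℤ) (i : S) : mulN N x i = N i * x i := rfl

theorem res_surj {m k : ℕ} (S : Finset (Fin k)) (c : Fin k → Fin m) (hc : Function.Injective c) :
    Function.Surjective (res S c) := by
  classical
  intro y
  refine ⟨fun j => ∑ i : S, if c i = j then y i else 0, ?_⟩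
  funext i
  rw [res_apply, Finset.sum_eq_single i]
  · rw [if_pos rfl]
  · intro i' _ hi'
    rw [if_neg]
    intro h
    exact hi' (Subtype.ext (hc h))
  · intro h
    exact absurd (mem_univ i) h

theorem mulN_inj {S : Type} (N : S → ℤ) (hN : ∀ i, N i ≠ 0) : Function.Injective (mulN N) := by
  intro x y h
  funext i
  have := congrFun h i
  rw [mulN_apply, mulN_apply] at this
  exact mul_left_cancel₀ (hN i) this

theorem mulN_range {S : Type} [Fintype S] (N : S → ℤ) :
    (mulN N).range.index = ∏ i, (N i).natAbs := by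
  have h : (mulN N).range = AddSubgroup.pi Set.univ fun i => AddSubgroup.zmultiples (N i) := by
    ext x
    rw [AddSubgroup.mem_pi, AddMonoidHom.mem_range]
    constructor
    · rintro ⟨y, rfl⟩ i _
      rw [AddSubgroup.mem_zmultiples_iff]
      exact ⟨y i, by rw [smul_eq_mul, mul_comm]; rfl⟩
    · intro h
      have h' : ∀ i, ∃ k : ℤ, k • N i = x i := fun i =>
        AddSubgroup.mem_zmultiples_iff.1 (h i (Set.mem_univ i))
      choose y hy using h'
      refine ⟨y, ?_⟩
      funext i
      rw [mulN_apply, ← hy i, smul_eq_mul, mul_comm]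
  rw [h, AddSubgroup.index_pi]
  exact Finset.prod_congr rfl fun i _ => Int.index_zmultiples _

/-- An integer vector is in the closure of `B` if the basis vectors of its support are in `B`. -/
theorem mem_closure_of_single {m : ℕ} {B : Set (Fin m → ℤ)} {x : Fin m → ℤ}
    (h : ∀ j, x j ≠ 0 → (Pi.single j 1 : Fin m → ℤ) ∈ B) : x ∈ AddSubgroup.closure B := by
  have hx : x = ∑ j, x j • (Pi.single j 1 : Fin m → ℤ) := by
    funext i
    rw [Finset.sum_apply, Finset.sum_eq_single i]
    · simp
    · intro j _ hj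
      simp [Ne.symm hj]
    · simp
  rw [hx]
  refine AddSubgroup.sum_mem _ fun j _ => ?_
  by_cases hj : x j = 0
  · rw [hj, zero_smul]
    exact AddSubgroup.zero_mem _
  · exact AddSubgroup.zsmul_mem _ (AddSubgroup.subset_closure (h j hj)) _

theorem sat_eq_top {m : ℕ} {B : Set (Fin m → ℤ)} (h : (AddSubgroup.closure B).index ≠ 0) :
    sat B = ⊤ := by
  rw [eq_top_iff]
  intro x _
  refine ⟨((AddSubgroup.closure B).index : ℤ), by exact_mod_cast h, ?_⟩
  rw [natCast_zsmul]
  exact AddSubgroup.nsmul_index_mem _ x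

theorem idx_eq_index {m : ℕ} {B : Set (Fin m → ℤ)} (h : sat B = ⊤) :
    idx B = (AddSubgroup.closure B).index := by
  unfold idx
  rw [h, AddSubgroup.relIndex_top_right]

end P6

open P6 Finset in
/-- The index of a lifted cone. -/
theorem liftIdx : LiftIdx := by
  classical
  intro n k A Z Φ hT blk N hblk hN F hF c hc
  have hZ : ∀ z ∈ Z, ∃ i : Fin k, z = Pi.single i 1 := hT.2.2.2.2.2.1.2.1
  have hc' : ∀ i, blk (c i) = i := by
    unfold sel at hc
    rw [mem_filter] at hc
    exact hc.2
  have hcinj : Function.Injective c := fun i j h => by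
    rw [← hc' i, ← hc' j, h]
  set S : Finset (Fin k) := univ.filter (fun i : Fin k => (Pi.single i 1 : Fin k → ℤ) ∉ F ∩ Z)
    with hS
  have hmemS : ∀ i, i ∈ S ↔ (Pi.single i 1 : Fin k → ℤ) ∉ F ∩ Z := fun i => by
    rw [hS, mem_filter]
    exact ⟨fun h => h.2, fun h => ⟨mem_univ i, h⟩⟩
  have hcone : ∀ j, j ∈ coneJ blk Z F c ↔
      (Pi.single (blk j) 1 : Fin k → ℤ) ∈ F ∩ Z ∨ j ≠ c (blk j) := fun j => by
    unfold coneJ
    rw [mem_filter]
    exact ⟨fun h => h.2, fun h => ⟨mem_univ j, h⟩⟩
  -- the cone `F`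
  have hsatF : sat (F : Set (Fin k → ℤ)) = ⊤ := by
    rw [eq_top_iff]
    intro x _
    exact Idx91.indep_mem_sat (Φ.mx_indep F hF) (T := univ) (fun v _ j hj => absurd (mem_univ j) hj)
      (by rw [Φ.mx_card F hF, card_univ, Fintype.card_fin]) (fun j hj => absurd (mem_univ j) hj)
  have hidF := idx_eq_index hsatF
  have hF0 : (AddSubgroup.closure (F : Set (Fin k → ℤ))).index ≠ 0 := by
    rw [← hidF]
    exact idxPos k (F : Set (Fin k → ℤ))
  have hkerF : (res S (id : Fin k → Fin k)).ker ≤ AddSubgroup.closure (F : Set (Fin k → ℤ)) := by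
    intro x hx
    rw [AddMonoidHom.mem_ker] at hx
    refine mem_closure_of_single fun i hi => ?_
    by_contra hcon
    have hiS : i ∈ S := (hmemS i).2 fun h => hcon (mem_inter.1 h).1
    exact hi (congrFun hx ⟨i, hiS⟩)
  have h1 : ((AddSubgroup.closure (F : Set (Fin k → ℤ))).map (res S (id : Fin k → Fin k))).index =
      (AddSubgroup.closure (F : Set (Fin k → ℤ))).index :=
    AddSubgroup.index_map_eq _ (res_surj S id Function.injective_id) hkerF
  -- the lifted cone
  set L : Finset (Fin n → ℤ) := liftCone blk N Z F c with hL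
  have hmemL : ∀ x, x ∈ L ↔ (∃ u ∈ F \ Z, lift blk N u = x) ∨
      ∃ j ∈ coneJ blk Z F c, (Pi.single j 1 : Fin n → ℤ) = x := fun x => by
    rw [hL]
    unfold liftCone
    rw [mem_union, mem_image, mem_image]
  have hkerL : (res S c).ker ≤ AddSubgroup.closure (L : Set (Fin n → ℤ)) := by
    intro x hx
    rw [AddMonoidHom.mem_ker] at hx
    refine mem_closure_of_single fun j hj => ?_
    rw [mem_coe, hmemL]
    refine Or.inr ⟨j, ?_, rfl⟩
    rw [hcone]
    by_contra hcon
    push Not at hcon
    have hiS : blk j ∈ S := (hmemS _).2 hcon.1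
    refine hj ?_
    rw [hcon.2]
    exact congrFun hx ⟨blk j, hiS⟩
  have h2 : ((AddSubgroup.closure (L : Set (Fin n → ℤ))).map (res S c)).index =
      (AddSubgroup.closure (L : Set (Fin n → ℤ))).index :=
    AddSubgroup.index_map_eq _ (res_surj S c hcinj) hkerL
  -- comparison
  have h3 : (AddSubgroup.closure (L : Set (Fin n → ℤ))).map (res S c) =
      ((AddSubgroup.closure (F : Set (Fin k → ℤ))).map (res S (id : Fin k → Fin k))).map
        (mulN fun i : S => (N (c i) : ℤ)) := by
    rw [AddMonoidHom.map_closure, AddMonoidHom.map_closure, AddMonoidHom.map_closure]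
    have hlift : ∀ u : Fin k → ℤ, res S c (lift blk N u) =
        mulN (fun i : S => (N (c i) : ℤ)) (res S (id : Fin k → Fin k) u) := fun u => by
      funext i
      rw [res_apply, mulN_apply, res_apply]
      unfold lift
      rw [hc']
      rfl
    apply le_antisymm
    · rw [AddSubgroup.closure_le]
      rintro _ ⟨x, hx, rfl⟩
      rw [mem_coe, hmemL] at hx
      rcases hx with ⟨u, hu, rfl⟩ | ⟨j, hj, rfl⟩
      · rw [hlift]
        exact AddSubgroup.subset_closure ⟨_, ⟨u, (mem_sdiff.1 hu).1, rfl⟩, rfl⟩
      · have h0 : res S c (Pi.single j 1) = 0 := by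
          funext i
          rw [res_apply]
          have hne : c i ≠ j := by
            intro h
            rw [hcone] at hj
            have hb : blk j = i := by rw [← h, hc']
            rcases hj with hj | hj
            · exact (hmemS _).1 i.2 (by rwa [hb] at hj)
            · exact hj (by rw [hb, h])
          simp [hne]
        rw [h0]
        exact AddSubgroup.zero_mem _
    · rw [AddSubgroup.closure_le]
      rintro _ ⟨_, ⟨u, hu, rfl⟩, rfl⟩
      rw [mem_coe] at hu
      by_cases huZ : u ∈ Z
      · obtain ⟨i₀, rfl⟩ := hZ u huZ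
        have h0 : res S (id : Fin k → Fin k) (Pi.single i₀ 1) = 0 := by
          funext i
          rw [res_apply]
          have hne : (i : Fin k) ≠ i₀ := by
            intro h
            exact (hmemS _).1 i.2 (by rw [h]; exact mem_inter.2 ⟨hu, huZ⟩)
          simp [hne]
        rw [h0, map_zero]
        exact AddSubgroup.zero_mem _
      · rw [← hlift]
        refine AddSubgroup.subset_closure ⟨lift blk N u, ?_, rfl⟩
        rw [mem_coe, hmemL]
        exact Or.inl ⟨u, mem_sdiff.2 ⟨hu, huZ⟩, rfl⟩
  have h4 : (AddSubgroup.closure (L : Set (Fin n → ℤ))).index =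
      (AddSubgroup.closure (F : Set (Fin k → ℤ))).index * ∏ i ∈ S, N (c i) := by
    rw [← h2, h3, AddSubgroup.index_map_of_injective _ (mulN_inj _ fun i => by
      have := hN (c i)
      exact_mod_cast this.ne'), h1, mulN_range]
    congr 1
    rw [← Finset.prod_coe_sort S]
    exact Finset.prod_congr rfl fun i _ => Int.natAbs_natCast _
  have h5 : (AddSubgroup.closure (L : Set (Fin n → ℤ))).index ≠ 0 := by
    rw [h4]
    exact mul_ne_zero hF0 (Finset.prod_ne_zero_iff.2 fun i _ => (hN (c i)).ne')
  rw [idx_eq_index (sat_eq_top h5), h4, hidF]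

end Comp

end Mono
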